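import Mathlib
import Pool.Agent.U170.B7.Seven

namespace Pool.Agent.Results.MP_b7b26a_co.SevenCycle

open Pool.Agent.U170.B7

/-- There is a 4-connected planar graph `G` with 69 vertices and a vertex `v` of `G` such that `G - v` has no
cycle of length seven. -/
theorem result : ∃ (G : SimpleGraph (Fin 69)) (v : Fin 69), IsPlanar G ∧ IsFourConnected G ∧
    ∀ (u : ({x | x ≠ v} : Set (Fin 69))) (c : (G.induce {x | x ≠ v}).Walk u u),
      c.IsCycle → c.length ≠ 7 :=
  ⟨G69, 68, planar, four_connected, no_seven_cycle⟩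

end Pool.Agent.Results.MP_b7b26a_co.SevenCycle
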